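import Mathlib
import Pool.Agent.W777.ST.Fin2
set_option autoImplicit false

/-!
# The extension conjecture for the paraboloid in `ℝ³` for almost every stretching of a density

Let `q > 3` and let `f` be a function in `L^q` of the disc `|x| ≤ 1/2` of the plane. For
`0 < s ≤ 1` let `stretch s f` be the function `f(x₁, x₂/s)`, again supported in that disc.

* The set of `s` for which the extension `ℰ (stretch s f)` from the paraboloid is not in `L^q(ℝ³)`
  has Hausdorff dimension at most `(4 - q)/(q - 2) < 1`.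
* In particular `ℰ (stretch s f)` is in `L^q(ℝ³)` for almost every `s`.
-/

namespace Pool.Agent.Results.MP_5ab805_an.AlmostEveryStretch

open MeasureTheory Set Complex
open scoped ENNReal NNReal

/-- The Fourier extension operator of the paraboloid:
`ℰf(ξ) = ∫ exp(-i(x₁ξ₁ + x₂ξ₂ + (x₁² + x₂²)ξ₃)) f(x) dx`. -/
noncomputable def ext (f : EuclideanSpace ℝ (Fin 2) → ℂ) (ξ : EuclideanSpace ℝ (Fin 3)) : ℂ :=
  ∫ x, cexp (-(((x 0 * ξ 0 + x 1 * ξ 1 + (x 0 ^ 2 + x 1 ^ 2) * ξ 2 : ℝ) : ℂ) * I)) * f x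

/-- The stretched function `x ↦ f(x₁, x₂/s)`. -/
noncomputable def stretch (s : ℝ) (f : EuclideanSpace ℝ (Fin 2) → ℂ)
    (x : EuclideanSpace ℝ (Fin 2)) : ℂ :=
  f !₂[x 0, x 1 / s]

theorem result (q : ℝ) (hq : 3 < q) (f : EuclideanSpace ℝ (Fin 2) → ℂ)
    (hf : MemLp f (ENNReal.ofReal q) volume) (hs : ∀ x, 1 / 2 < ‖x‖ → f x = 0) :
    dimH {s ∈ Ioc (0 : ℝ) 1 | ¬ MemLp (ext (stretch s f)) (ENNReal.ofReal q) volume} ≤
      ENNReal.ofReal ((4 - q) / (q - 2)) ∧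
    (∀ᵐ s ∂(volume.restrict (Ioc (0 : ℝ) 1)),
      MemLp (ext (stretch s f)) (ENNReal.ofReal q) volume) := by
  obtain ⟨g, hg, hgs, hgL, hfg⟩ := Pool.Agent.W777.ST.good_rep hf hs
  have hext : ∀ s : ℝ, 0 < s → ext (stretch s f) =
      Pool.Agent.W777.ST.ext (Pool.Agent.W777.ST.stretch s g) := fun s h0 =>
    Pool.Agent.W777.ST.ext_congr (Pool.Agent.W777.ST.stretch_ae h0.ne' hfg)
  have hsub : {s ∈ Ioc (0 : ℝ) 1 | ¬ MemLp (ext (stretch s f)) (ENNReal.ofReal q) volume} ⊆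
      {s ∈ Ioc (0:ℝ) 1 | Pool.Agent.W777.ST.GG q (s ^ 2) univ g = ⊤} := by
    rintro s ⟨h1, h2⟩
    refine ⟨h1, ?_⟩
    by_contra hcon
    apply h2
    rw [hext s h1.1]
    exact Pool.Agent.W777.ST.ext_memLp h1.1 (by linarith) hg hcon
  have hdim : dimH {s ∈ Ioc (0 : ℝ) 1 |
      ¬ MemLp (ext (stretch s f)) (ENNReal.ofReal q) volume} ≤
      ENNReal.ofReal ((4 - q) / (q - 2)) :=
    (dimH_mono hsub).trans (Pool.Agent.W777.ST.exc_s hq hg hgs hgL)
  refine ⟨hdim, ?_⟩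
  have hlt : ENNReal.ofReal ((4 - q) / (q - 2)) < 1 := by
    rw [← ENNReal.ofReal_one, ENNReal.ofReal_lt_ofReal_iff zero_lt_one,
      div_lt_one (by linarith)]
    linarith
  have hz : μH[((1 : ℝ≥0) : ℝ)] {s ∈ Ioc (0 : ℝ) 1 |
      ¬ MemLp (ext (stretch s f)) (ENNReal.ofReal q) volume} = 0 :=
    hausdorffMeasure_of_dimH_lt (lt_of_le_of_lt hdim (by exact_mod_cast hlt))
  rw [NNReal.coe_one, hausdorffMeasure_real] at hz
  rw [ae_restrict_iff' measurableSet_Ioc, ae_iff]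
  refine measure_mono_null ?_ hz
  intro s h
  simp only [mem_ofPred_eq, Classical.not_imp] at h
  exact h

end Pool.Agent.Results.MP_5ab805_an.AlmostEveryStretch
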