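import Mathlib
import Pool.Agent.W777.ST.St
set_option autoImplicit false

/-!
# The extension conjecture for the paraboloid in `ℝ³` on average over the stretchings of a density

For `f` in `L^q` of the disc `|x| ≤ 1/2` of the plane and `0 < s ≤ 1` let `stretch s f` be the
function `f(x₁, x₂/s)`, again supported in that disc. For every `q > 3` the quotient
`‖ℰ (stretch s f)‖_q^q / ‖stretch s f‖_q^q`, averaged over `s ∈ (0,1]`, is bounded by a constant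
which does not depend on `f`. More generally this holds for averages with respect to all measures
`μ` with `μ([a, a+r]) ≤ A r^α`, `0 < α ≤ 1`, and all `q > 2 + 2/(1+α)`.
-/

namespace Pool.Agent.Results.MP_5ab805_an.AveragedStretches

open MeasureTheory Set Complex
open scoped ENNReal NNReal

/-- The Fourier extension operator of the paraboloid:
`ℰf(ξ) = ∫ exp(-i(x₁ξ₁ + x₂ξ₂ + (x₁² + x₂²)ξ₃)) f(x) dx`. -/
noncomputable def ext (f : EuclideanSpace ℝ (Fin 2) → ℂ) (ξ : EuclideanSpace ℝ (Fin 3)) : ℂ :=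
  ∫ x, cexp (-(((x 0 * ξ 0 + x 1 * ξ 1 + (x 0 ^ 2 + x 1 ^ 2) * ξ 2 : ℝ) : ℂ) * I)) * f x

/-- The stretched function `x ↦ f(x₁, x₂/s)`. -/
noncomputable def stretch (s : ℝ) (f : EuclideanSpace ℝ (Fin 2) → ℂ)
    (x : EuclideanSpace ℝ (Fin 2)) : ℂ :=
  f !₂[x 0, x 1 / s]

theorem result (α q A : ℝ) (hα0 : 0 < α) (hα1 : α ≤ 1) (hq : 2 + 2 / (1 + α) < q)
    (hA : 0 < A) : ∃ C : ℝ, 0 < C ∧ ∀ μ : Measure ℝ,
    (∀ a r : ℝ, 0 < r → r ≤ 1 → μ (Icc a (a + r)) ≤ ENNReal.ofReal (A * r ^ α)) →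
    ∀ f : EuclideanSpace ℝ (Fin 2) → ℂ, MemLp f (ENNReal.ofReal q) volume →
      (∀ x, 1 / 2 < ‖x‖ → f x = 0) →
      ∫⁻ s in Ioc (0 : ℝ) 1, (∫⁻ ξ, ‖ext (stretch s f) ξ‖ₑ ^ q) /
        (∫⁻ x, ‖stretch s f x‖ₑ ^ q) ∂μ ≤ ENNReal.ofReal C := by
  obtain ⟨C, hC, h⟩ := Pool.Agent.W777.ST.avg_s hα0 hα1 hq hA
  have hq2 : 0 < q := by
    have : 0 < 2 / (1 + α) := by positivity
    linarith
  refine ⟨(2 * Real.pi) ^ 3 * C.toReal + 1, by positivity, fun μ hμ f hf hs => ?_⟩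
  obtain ⟨g, hg, hgs, hgL, hfg⟩ := Pool.Agent.W777.ST.good_rep hf hs
  have hext : ∀ s : ℝ, 0 < s → ext (stretch s f) =
      Pool.Agent.W777.ST.ext (Pool.Agent.W777.ST.stretch s g) := fun s h0 =>
    Pool.Agent.W777.ST.ext_congr (Pool.Agent.W777.ST.stretch_ae h0.ne' hfg)
  have hstr : ∀ s : ℝ, 0 < s → ∫⁻ x, ‖stretch s f x‖ₑ ^ q =
      ENNReal.ofReal s * ∫⁻ x, ‖g x‖ₑ ^ q := by
    intro s h0
    rw [← Pool.Agent.W777.ST.stretch_int h0 hg]
    apply lintegral_congr_ae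
    have h1 := Pool.Agent.W777.ST.stretch_ae h0.ne' hfg
    filter_upwards [h1] with x hx
    have hx' : stretch s f x = Pool.Agent.W777.ST.stretch s g x := hx
    rw [hx']
  have hN : ∫⁻ x, ‖g x‖ₑ ^ q ≠ ⊤ := by
    have h1 := hgL.2
    rw [eLpNorm_lt_top_iff_lintegral_rpow_enorm_lt_top (ENNReal.ofReal_pos.2 hq2).ne'
      ENNReal.ofReal_ne_top, ENNReal.toReal_ofReal hq2.le] at h1
    exact h1.ne
  set N : ℝ≥0∞ := ∫⁻ x, ‖g x‖ₑ ^ q with hNd
  by_cases hN0 : N = 0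
  · have hg0 : g =ᵐ[volume] 0 := by
      rw [hNd, lintegral_eq_zero_iff (hg.enorm.pow_const q)] at hN0
      filter_upwards [hN0] with x hx
      simp only [Pi.zero_apply, ENNReal.rpow_eq_zero_iff, enorm_eq_zero] at hx
      rcases hx with hx | hx
      · exact hx.1
      · exact absurd hx.2 (by linarith)
    have hz : ∀ s ∈ Ioc (0 : ℝ) 1, (∫⁻ ξ, ‖ext (stretch s f) ξ‖ₑ ^ q) /
        (∫⁻ x, ‖stretch s f x‖ₑ ^ q) = 0 := by
      intro s hs'
      have h1 : ext (stretch s f) = fun _ => 0 := by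
        rw [hext s hs'.1, Pool.Agent.W777.ST.ext_congr
          (Pool.Agent.W777.ST.stretch_ae hs'.1.ne' hg0)]
        ext ξ
        simp [Pool.Agent.W777.ST.ext, Pool.Agent.W777.ST.stretch]
      rw [h1]
      simp [ENNReal.zero_rpow_of_pos hq2]
    rw [setLIntegral_congr_fun measurableSet_Ioc hz]
    simp
  have hpt : ∀ s ∈ Ioc (0 : ℝ) 1, (∫⁻ ξ, ‖ext (stretch s f) ξ‖ₑ ^ q) /
      (∫⁻ x, ‖stretch s f x‖ₑ ^ q) = (ENNReal.ofReal ((2 * Real.pi) ^ 3) * N⁻¹) *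
        (ENNReal.ofReal (s ^ (q - 2)) * Pool.Agent.W777.ST.GG q (s ^ 2) univ g) := by
    intro s hs'
    have h0 := hs'.1
    rw [hext s h0, hstr s h0, Pool.Agent.W777.ST.ext_int h0 hq2 hg]
    have e1 : (2 * Real.pi) ^ 3 * s ^ (q - 1) = (2 * Real.pi) ^ 3 * (s ^ (q - 2) * s) := by
      congr 1
      rw [← Real.rpow_add_one h0.ne']
      congr 1
      ring
    rw [e1, ENNReal.ofReal_mul (by positivity), ENNReal.ofReal_mul (by positivity),
      ENNReal.div_eq_inv_mul, ENNReal.mul_inv (Or.inr hN) (Or.inr hN0)]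
    have e2 : (ENNReal.ofReal s)⁻¹ * ENNReal.ofReal s = 1 :=
      ENNReal.inv_mul_cancel (ENNReal.ofReal_pos.2 h0).ne' ENNReal.ofReal_ne_top
    calc (ENNReal.ofReal s)⁻¹ * N⁻¹ * (ENNReal.ofReal ((2 * Real.pi) ^ 3) *
          (ENNReal.ofReal (s ^ (q - 2)) * ENNReal.ofReal s) *
            Pool.Agent.W777.ST.GG q (s ^ 2) univ g)
        = ((ENNReal.ofReal s)⁻¹ * ENNReal.ofReal s) * ((ENNReal.ofReal ((2 * Real.pi) ^ 3) * N⁻¹) *
        (ENNReal.ofReal (s ^ (q - 2)) * Pool.Agent.W777.ST.GG q (s ^ 2) univ g)) := by ring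
      _ = _ := by rw [e2, one_mul]
  rw [setLIntegral_congr_fun measurableSet_Ioc hpt, lintegral_const_mul' _ _
    (ENNReal.mul_ne_top ENNReal.ofReal_ne_top (ENNReal.inv_ne_top.2 hN0))]
  refine (mul_le_mul' le_rfl (h μ hμ g hg hgs hN)).trans ?_
  have e3 : ENNReal.ofReal ((2 * Real.pi) ^ 3) * N⁻¹ * (C * N) =
      ENNReal.ofReal ((2 * Real.pi) ^ 3) * C * (N⁻¹ * N) := by ring
  rw [← hNd, e3, ENNReal.inv_mul_cancel hN0 hN, mul_one,
    ENNReal.ofReal_add (by positivity) zero_le_one, ENNReal.ofReal_mul (by positivity),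
    ENNReal.ofReal_toReal hC.ne]
  exact le_self_add

end Pool.Agent.Results.MP_5ab805_an.AveragedStretches
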