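import Mathlib
import Pool.Agent.W771.NW
set_option autoImplicit false

/-!
# The Fourier extension conjecture in `ℝ³` for stochastically monotone twists

`Q = [-1/2,1/2]²` and `E` is the extension operator of the paraboloid over `Q`. In the full range
`q > 3` the estimate `‖E f‖_q ≤ C ‖a‖_q` is proved for all functions
`f(u,v) = a(u) g(u,v) φ_u(v)`, where `a ∈ L^q` is arbitrary, `g` is bounded by `1`, measurable,
and of bounded variation in `v` only, and `φ_u(v) = ∫ exp(i v s) dκ_u(s)` are the characteristic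
functions of probability measures `κ_u` on `ℝ` which are (piecewise) stochastically monotone in
`u`. For point masses `κ_u = δ_{λ(u)}` the functions are `f(u,v) = a(u) g(u,v) exp(i λ(u) v)`
with `λ` piecewise monotone and otherwise arbitrary. The constant depends on `q`, the variation
of `g` and the number of pieces only; nothing is assumed on the size or on the tails of the
measures `κ_u`, and `f` need not have any regularity in either variable.
-/

namespace Pool.Agent.Results.MP_5ab805_an.MonotoneTwists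

open MeasureTheory Set Complex ProbabilityTheory
open scoped ENNReal NNReal

/-- The square `[-1/2,1/2]²`. -/
def Q : Set (ℝ × ℝ) := Icc (-(1 / 2)) (1 / 2) ×ˢ Icc (-(1 / 2)) (1 / 2)

/-- The extension operator of the paraboloid:
`Ef(ξ) = ∫_Q f(x) exp(-i(x₁ ξ₁ + x₂ ξ₂ + |x|² ξ₃)) dx`. -/
noncomputable def ext (f : ℝ × ℝ → ℂ) (ξ : ℝ × ℝ × ℝ) : ℂ :=
  ∫ x in Q, f x * cexp (-(I * ((x.1 * ξ.1 + x.2 * ξ.2.1 + (x.1 ^ 2 + x.2 ^ 2) * ξ.2.2 : ℝ) : ℂ)))

/-- `κ` is piecewise stochastically monotone with `k` pieces: the interval `[-1/2,1/2]` is covered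
by `k` closed intervals, and on each of them either all the tails `u ↦ κ_u((r,∞))`, `r ∈ ℝ`, are
nondecreasing in `u`, or all of them are nonincreasing in `u`. -/
def PiecewiseStochMonotone (k : ℕ) (κ : Kernel ℝ ℝ) : Prop := ∃ s e : Fin k → ℝ,
  Icc (-(1 / 2) : ℝ) (1 / 2) ⊆ (⋃ i, Icc (s i) (e i)) ∧ ∀ i,
    (∀ r, MonotoneOn (fun u => κ u (Ioi r)) (Icc (s i) (e i))) ∨
    (∀ r, AntitoneOn (fun u => κ u (Ioi r)) (Icc (s i) (e i)))

/-- **The extension conjecture for stochastically monotone twists.** Let `q > 3`, `k ∈ ℕ` and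
`V ≥ 0`. There is `C` such that `∫_{ℝ³} |E f|^q ≤ C ∫_{-1/2}^{1/2} |a|^q` for every
`f(u,v) = a(u) g(u,v) φ_u(v)`, where

* `a` is measurable, `g` is measurable with `|g| ≤ 1` on `Q`, and for all `u ∈ [-1/2,1/2]` and
  `h ∈ [0,1]` the integral of `|g(u,v+h) - g(u,v)|` over `v ∈ [-1/2,1/2-h]` is at most `V h`
  (which holds when the variation of `g(u,·)` on `[-1/2,1/2]` is at most `V`),
* `φ_u` is the characteristic function of the probability measure `κ_u` on `ℝ`, and the family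
  `κ_u` is piecewise stochastically monotone with `k` pieces. -/
theorem result (q : ℝ) (hq : 3 < q) (k : ℕ) (V : ℝ≥0) : ∃ C : ℝ≥0,
    ∀ (κ : Kernel ℝ ℝ) [IsMarkovKernel κ] (a : ℝ → ℂ) (g : ℝ × ℝ → ℂ),
      PiecewiseStochMonotone k κ → Measurable a → Measurable g → (∀ x ∈ Q, ‖g x‖ ≤ 1) →
      (∀ u ∈ Icc (-(1 / 2) : ℝ) (1 / 2), ∀ h ∈ Icc (0 : ℝ) 1,
        ∫⁻ v in Icc (-(1 / 2) : ℝ) (1 / 2 - h), ‖g (u, v + h) - g (u, v)‖ₑ ≤
          ENNReal.ofReal (V * h)) →
      ∫⁻ ξ, ‖ext (fun x => a x.1 * g x * charFun (κ x.1) x.2) ξ‖ₑ ^ q ≤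
        C * ∫⁻ u in Icc (-(1 / 2) : ℝ) (1 / 2), ‖a u‖ₑ ^ q := by
  obtain ⟨C, hC⟩ := Pool.Agent.W771.NN.main3 q hq k V V.2
  refine ⟨C, ?_⟩
  intro κ _ a g hκ ha hg hb hmod
  exact hC (fun u => κ u) a g (fun s => κ.measurable_coe measurableSet_Iic) ha hg hb hmod hκ

end Pool.Agent.Results.MP_5ab805_an.MonotoneTwists
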