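import Mathlib
import Pool.Agent.W770.PC.Fin5
set_option autoImplicit false

/-!
# The extension conjecture in `ℝ³` for polynomial chirps on polygons

For every `q > 3` and all `D`, `k` there is a constant `C` such that for every real polynomial `P`
in two variables of degree at most `D`, every closed square of side `2 r` and every intersection
`K` of this square with `k` closed half planes, the extension of the function `1_K exp(i P)` from
the paraboloid has `L^q(ℝ³)` norm at most `C r^(2 - 4/q)`.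
-/

namespace Pool.Agent.Results.MP_5ab805_an.PolynomialChirps

open MeasureTheory Set Complex
open scoped ENNReal NNReal RealInnerProductSpace

/-- The Fourier extension operator of the paraboloid:
`ℰf(ξ) = ∫ exp(-i(x₁ξ₁ + x₂ξ₂ + (x₁² + x₂²)ξ₃)) f(x) dx`. -/
noncomputable def ext (f : EuclideanSpace ℝ (Fin 2) → ℂ) (ξ : EuclideanSpace ℝ (Fin 3)) : ℂ :=
  ∫ x, cexp (-(((x 0 * ξ 0 + x 1 * ξ 1 + (x 0 ^ 2 + x 1 ^ 2) * ξ 2 : ℝ) : ℂ) * I)) * f x

/-- The function `exp(i P(x))`. -/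
noncomputable def chirp (P : MvPolynomial (Fin 2) ℝ) (x : EuclideanSpace ℝ (Fin 2)) : ℂ :=
  cexp (I * ((MvPolynomial.eval (fun i => x i) P : ℝ) : ℂ))

/-- The closed square with centre `a` and side `2 r`. -/
def square (a : EuclideanSpace ℝ (Fin 2)) (r : ℝ) : Set (EuclideanSpace ℝ (Fin 2)) :=
  {x | |x 0 - a 0| ≤ r ∧ |x 1 - a 1| ≤ r}

/-- The intersection of the closed half planes `ω_j·x ≥ c_j`, `j < k`. -/
def cut {k : ℕ} (ω : Fin k → EuclideanSpace ℝ (Fin 2)) (c : Fin k → ℝ) :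
    Set (EuclideanSpace ℝ (Fin 2)) := {x | ∀ j, c j ≤ ⟪ω j, x⟫}

theorem result (q : ℝ) (hq : 3 < q) (D k : ℕ) :
    ∃ C : ℝ, ∀ P : MvPolynomial (Fin 2) ℝ, P.totalDegree ≤ D →
      ∀ (a : EuclideanSpace ℝ (Fin 2)) (r : ℝ), 0 < r →
      ∀ (ω : Fin k → EuclideanSpace ℝ (Fin 2)) (c : Fin k → ℝ), (∀ j, ‖ω j‖ = 1) →
        eLpNorm (ext ((square a r ∩ cut ω c).indicator (chirp P))) (ENNReal.ofReal q) volume ≤
          ENNReal.ofReal (C * r ^ (2 - 4 / q)) := by
  obtain ⟨K, hK⟩ := Pool.Agent.W770.PC.polyR_exo q hq D k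
  refine ⟨K, fun P hP a r hr ω c hω => ?_⟩
  have h1 := hK P hP a r hr ω c hω
  have e2 : chirp P = fun x => Pool.Agent.W770.PC.ee (MvPolynomial.eval (fun i => x i) P) := by
    ext x
    unfold chirp Pool.Agent.W770.PC.ee
    rw [mul_comm]
  rw [e2]
  exact h1

end Pool.Agent.Results.MP_5ab805_an.PolynomialChirps
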