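import Mathlib
import Pool.Agent.W771.Hom
set_option autoImplicit false

/-!
# The Fourier extension conjecture in `ℝ³` for Schur multipliers times half-regular functions

`Q = [-1/2,1/2]²` and `E` is the extension operator of the paraboloid over `Q`. In the full range
`q > 3`, and for all `p ≥ 2` with `1/p < 1 - 2/q` (for example `p = q`), the estimate
`‖E f‖_q ≤ C ‖(∑ |α_k|²)^(1/2)‖_p ‖(∑ |β_k|²)^(1/2)‖_p` holds for all
`f(u,v) = (∑_k α_k(u) β_k(v)) g_1(u,v) ⋯ g_n(u,v)`, where the functions `α_k, β_k` are measurable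
and the functions `g_i` are bounded by `1` and have half a derivative, in an `L²` sense, in one
of the two variables, and nothing more than measurability in the other one.
-/

namespace Pool.Agent.Results.MP_5ab805_an.SchurMultipliers

open MeasureTheory Set Complex
open scoped ENNReal NNReal

/-- The square `[-1/2,1/2]²`. -/
def Q : Set (ℝ × ℝ) := Icc (-(1 / 2)) (1 / 2) ×ˢ Icc (-(1 / 2)) (1 / 2)

/-- The extension operator of the paraboloid:
`Ef(ξ) = ∫_Q f(x) exp(-i(x₁ ξ₁ + x₂ ξ₂ + |x|² ξ₃)) dx`. -/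
noncomputable def ext (f : ℝ × ℝ → ℂ) (ξ : ℝ × ℝ × ℝ) : ℂ :=
  ∫ x in Q, f x * cexp (-(I * ((x.1 * ξ.1 + x.2 * ξ.2.1 + (x.1 ^ 2 + x.2 ^ 2) * ξ.2.2 : ℝ) : ℂ)))

/-- `∫_{[-1/2,1/2]} (∑_k |α_k|²)^(p/2)`, the `p`-th power of the `L^p` norm of the square
function of the `α_k`. -/
noncomputable def mixed (α : ℕ → ℝ → ℂ) (p : ℝ) : ℝ≥0∞ :=
  ∫⁻ u in Icc (-(1 / 2) : ℝ) (1 / 2), (∑' k, ‖α k u‖ₑ ^ 2) ^ (p / 2)

/-- `g` is half-regular in the second variable with constant `K`: for all `u ∈ [-1/2,1/2]` and
`h ∈ [0,1]`, the integral of `|g(u,v+h) - g(u,v)|²` over the `v` with `v, v + h ∈ [-1/2,1/2]` is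
at most `K h`. -/
def HalfRegular (K : ℝ≥0) (g : ℝ × ℝ → ℂ) : Prop :=
  ∀ u ∈ Icc (-(1 / 2) : ℝ) (1 / 2), ∀ h ∈ Icc (0 : ℝ) 1,
    ∫⁻ v in Icc (-(1 / 2) : ℝ) (1 / 2 - h), ‖g (u, v + h) - g (u, v)‖ₑ ^ 2 ≤ ENNReal.ofReal (K * h)

open Pool.Agent.W771

lemma Q_meas : MeasurableSet Q := measurableSet_Icc.prod measurableSet_Icc

lemma reg_of (K : ℝ≥0) (g : ℝ × ℝ → ℂ) (hg : HalfRegular K g) : RegV K (Q.indicator g) := by
  intro u hu h hh
  refine le_trans (le_of_eq ?_) (hg u hu h hh)
  apply setLIntegral_congr_fun measurableSet_Icc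
  intro v hv
  simp only
  have h1 : (u, v + h) ∈ Q := ⟨hu, by
    constructor
    · simp only
      linarith [hv.1, hh.1]
    · simp only
      linarith [hv.2]⟩
  have h2 : (u, v) ∈ Q := ⟨hu, by
    constructor
    · simp only
      linarith [hv.1]
    · simp only
      linarith [hv.2, hh.1]⟩
  rw [indicator_of_mem h1, indicator_of_mem h2]

lemma reg_swap (K : ℝ≥0) (g : ℝ × ℝ → ℂ) (hg : HalfRegular K (fun x => g x.swap)) :
    RegV K (fun w => Q.indicator g w.swap) := by
  have h1 := reg_of K _ hg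
  have h2 : Q.indicator (fun x => g x.swap) = fun w => Q.indicator g w.swap := by
    ext w
    by_cases h : w ∈ Q
    · rw [indicator_of_mem h, indicator_of_mem (show w.swap ∈ Q from ⟨h.2, h.1⟩)]
    · rw [indicator_of_notMem h, indicator_of_notMem]
      intro h3
      exact h ⟨h3.2, h3.1⟩
  rwa [h2] at h1

/-- **The extension conjecture for Schur multipliers times half-regular functions.** Let `q > 3`,
`p ≥ 2`, `1/p < 1 - 2/q`, `n ∈ ℕ` and `K ≥ 0`. There is `C` such that for all measurable
`α_k, β_k : ℝ → ℂ` (`k ∈ ℕ`) with finite mixed norms and all measurable `g_1, ..., g_n` with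
`|g_i| ≤ 1` on `Q`, each of them half-regular with constant `K` in one of the two variables, the
function `f(u,v) = (∑_k α_k(u) β_k(v)) ∏_i g_i(u,v)` satisfies
`∫_{ℝ³} |E f|^q ≤ C ‖(∑ |α_k|²)^(1/2)‖_p^q ‖(∑ |β_k|²)^(1/2)‖_p^q`. -/
theorem result (q p : ℝ) (hq : 3 < q) (hp : 2 ≤ p) (hpq : 1 / p < 1 - 2 / q) (n : ℕ) (K : ℝ≥0) :
    ∃ C : ℝ≥0, ∀ (α β : ℕ → ℝ → ℂ) (g : Fin n → ℝ × ℝ → ℂ),
      (∀ k, Measurable (α k)) → (∀ k, Measurable (β k)) → mixed α p < ∞ → mixed β p < ∞ →
      (∀ i, Measurable (g i)) → (∀ i, ∀ x ∈ Q, ‖g i x‖ ≤ 1) →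
      (∀ i, HalfRegular K (g i) ∨ HalfRegular K (fun x => g i x.swap)) →
      ∫⁻ ξ, ‖ext (fun x => (∑' k, α k x.1 * β k x.2) * ∏ i, g i x) ξ‖ₑ ^ q ≤
        C * mixed α p ^ (q / p) * mixed β p ^ (q / p) := by
  have hp0 : 0 < p := by linarith
  have hq0 : 0 < q := by linarith
  have hpq' : q < p * (q - 2) := by
    have h1 : 1 / p < (q - 2) / q := by
      have : 1 - 2 / q = (q - 2) / q := by field_simp
      rwa [this] at hpq
    rw [div_lt_div_iff₀ hp0 hq0] at h1
    linarith
  obtain ⟨C, hC⟩ := good_prod p hp K n q hq hpq'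
  refine ⟨C, ?_⟩
  intro α β g hα hβ hαf hβf hg hgb hreg
  -- the data
  set G : Fin n → ℝ × ℝ → ℂ := fun i => Q.indicator (g i) with hG
  have hGood := hC G (fun i => (hg i).indicator Q_meas) (by
    intro i w
    simp only [hG]
    by_cases h : w ∈ Q
    · rw [indicator_of_mem h]
      exact hgb i w h
    · rw [indicator_of_notMem h, norm_zero]
      exact zero_le_one) (by
    intro i
    rcases hreg i with h | h
    · exact Or.inl (reg_of K _ h)
    · exact Or.inr (reg_swap K _ h))
  set a : ℝ → ℕ → ℂ := fun u k => II.indicator (α k) u with ha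
  set b : ℝ → ℕ → ℂ := fun u k => II.indicator (β k) u with hb
  have ham : Measurable (Function.uncurry a) :=
    measurable_from_prod_countable_left fun k => (hα k).indicator measurableSet_Icc
  have hbm : Measurable (Function.uncurry b) :=
    measurable_from_prod_countable_left fun k => (hβ k).indicator measurableSet_Icc
  have hmix : ∀ γ : ℕ → ℝ → ℂ, mix Measure.count (fun u k => II.indicator (γ k) u) p = mixed γ p := by
    intro γ
    unfold mix mixed
    apply setLIntegral_congr_fun measurableSet_Icc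
    intro u hu
    simp only [N2]
    rw [lintegral_count]
    congr 2
    ext k
    rw [indicator_of_mem hu]
  have hfin := good_hom (fun w => ∏ i, G i w) q p hq0 hp0 C hGood ℕ Measure.count a b ham hbm
    (fun u hu k => indicator_of_notMem hu _) (fun u hu k => indicator_of_notMem hu _)
    (by rw [ha, hmix]; exact hαf.ne) (by rw [hb, hmix]; exact hβf.ne)
  have e1 : mix Measure.count a p = mixed α p := hmix α
  have e2 : mix Measure.count b p = mixed β p := hmix β
  rw [e1, e2] at hfin
  have hGm : Measurable (fun w => ∏ i, G i w) :=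
    Finset.measurable_prod _ fun i _ => (hg i).indicator Q_meas
  have hHm : Measurable (fun w => FF Measure.count a b w * ∏ i, G i w) :=
    (FF_meas Measure.count a b ham hbm).mul hGm
  -- identification of the operator
  have hE : ∀ ξ : ℝ × ℝ × ℝ, ext (fun x => (∑' k, α k x.1 * β k x.2) * ∏ i, g i x) ξ =
      EE (fun w => FF Measure.count a b w * ∏ i, G i w) ξ.1 ξ.2.1 ξ.2.2 := by
    intro ξ
    unfold ext EE
    rw [← integral_indicator Q_meas]
    congr 1
    ext w
    by_cases hw : w ∈ Q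
    · rw [indicator_of_mem hw]
      have h1 : FF Measure.count a b w = ∑' k, α k w.1 * β k w.2 := by
        unfold FF
        rw [integral_count_nat]
        congr 1
        ext k
        simp only [ha, hb]
        rw [indicator_of_mem (show w.1 ∈ II from hw.1), indicator_of_mem (show w.2 ∈ II from hw.2)]
      have h2 : ∏ i, G i w = ∏ i, g i w := by
        apply Finset.prod_congr rfl
        intro i _
        simp only [hG]
        rw [indicator_of_mem hw]
      simp only [h1, h2]
      congr 1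
      unfold ph
      rw [← Complex.exp_add]
      congr 1
      push_cast
      ring
    · rw [indicator_of_notMem hw]
      have h1 : FF Measure.count a b w = 0 := by
        unfold FF
        have : ∀ k, a w.1 k * b w.2 k = 0 := by
          intro k
          simp only [ha, hb]
          by_cases h3 : w.1 ∈ II
          · have h4 : w.2 ∉ II := fun h4 => hw ⟨h3, h4⟩
            rw [indicator_of_notMem h4, mul_zero]
          · rw [indicator_of_notMem h3, zero_mul]
        simp [this]
      simp only [h1]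
      ring
  simp only [hE]
  have hEm : Measurable (fun z : ℝ × ℝ × ℝ =>
      ‖EE (fun w => FF Measure.count a b w * ∏ i, G i w) z.1 z.2.1 z.2.2‖ₑ ^ q) :=
    (EE_meas _ hHm).enorm.pow_const q
  rw [lint_triple _ hEm]
  exact hfin

end Pool.Agent.Results.MP_5ab805_an.SchurMultipliers
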